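import Pool.Agent.H26.ErdosRado

set_option autoImplicit false
open Set Cardinal

universe u

namespace Pool.Agent.Results.MP_cf3da8_lc.Neg

/-- order type of a subset of a well-order -/
noncomputable def otp {X : Type u} [LinearOrder X] [WellFoundedLT X] (A : Set X) : Ordinal.{u} :=
  Ordinal.type ((· < ·) : A → A → Prop)

/-- the polarized relation (lam over kap) -> (a 0, a 1 over b 0, b 1) for two colours -/
def Pol (lam kap : Cardinal.{u}) (a b : Fin 2 → Ordinal.{u}) : Prop :=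
  ∀ c : lam.ord.ToType → kap.ord.ToType → Fin 2, ∃ (i : Fin 2) (A : Set lam.ord.ToType)
    (B : Set kap.ord.ToType), otp A = a i ∧ otp B = b i ∧ ∀ x ∈ A, ∀ y ∈ B, c x y = i

/-- measurable cardinal -/
def Meas (κ : Cardinal.{u}) : Prop :=
  ℵ₀ < κ ∧ ∃ U : Ultrafilter κ.ord.ToType, (∀ x, {x} ∉ U) ∧
    ∀ S : Set (Set κ.ord.ToType), #S < κ → (∀ s ∈ S, s ∈ U) → ⋂₀ S ∈ U

theorem iic {lam : Cardinal.{u}} (h0 : ℵ₀ ≤ lam) (a : lam.ord.ToType) : #(Iic a) < lam := by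
  rw [← Iio_insert]
  exact (Cardinal.mk_insert_le).trans_lt
    (Cardinal.add_lt_of_lt h0 (Cardinal.mk_Iio_toType_ord_lt a) (one_lt_aleph0.trans_le h0))

theorem meas_sl {κ ν : Cardinal.{u}} (h : Meas κ) (hν : ν < κ) : 2 ^ ν < κ := by
  obtain ⟨-, U, h1, h2⟩ := h
  by_contra hc
  obtain ⟨f⟩ : Nonempty (κ.ord.ToType ↪ Set ν.out) := by
    rw [← Cardinal.le_def]; simpa using not_lt.1 hc
  have : ∀ i : ν.out, ∃ s ∈ U, ∀ x ∈ s, ∀ y ∈ s, (i ∈ f x ↔ i ∈ f y) := by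
    intro i
    rcases U.mem_or_compl_mem {x | i ∈ f x} with h | h
    · exact ⟨_, h, fun x hx y hy => iff_of_true hx hy⟩
    · exact ⟨_, h, fun x hx y hy => iff_of_false hx hy⟩
  choose s hs hs' using this
  have h3 := h2 (range s) (Cardinal.mk_range_le.trans_lt (by simpa using hν))
    (by rintro _ ⟨i, rfl⟩; exact hs i)
  obtain ⟨x, hx⟩ := U.nonempty_of_mem h3
  refine h1 x (Filter.mem_of_superset h3 fun y hy => f.injective (Set.ext fun i => ?_))
  exact hs' i y (hy _ ⟨i, rfl⟩) x (hx _ ⟨i, rfl⟩)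

theorem build {P L : Type u} [LinearOrder P] [WellFoundedLT P] {μ : Cardinal.{u}} (hμ : ℵ₀ ≤ μ)
    (X B : P → Set _) (hX : ∀ ξ, X ξ ⊆ Iio ξ) (hX' : ∀ ξ, #(X ξ) ≤ μ)
    (hB : ∀ η, μ < #(B η : Set L)) :
    ∃ S : P → Set L, ∀ ξ, #(S ξ) ≤ μ ∧ (∀ η ∈ X ξ, (S ξ ∩ B η).Nonempty) ∧
      ∀ ζ ∈ X ξ, Disjoint (S ξ) (S ζ) := by
  classical
  have hpk : ∀ (η : P) (T : Set L), ∃ x, #T ≤ μ → x ∈ B η ∧ x ∉ T := by
    intro η T
    by_cases hT : #T ≤ μ
    · by_contra hc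
      push Not at hc
      refine (hB η).not_ge ((Cardinal.mk_le_mk_of_subset fun x hx => ?_).trans hT)
      exact (hc x).2 hx
    · obtain ⟨x, -⟩ : (B η).Nonempty := by
        rw [← Set.nonempty_coe_sort, ← Cardinal.mk_ne_zero_iff]
        exact (lt_of_le_of_lt zero_le (hB η)).ne'
      exact ⟨x, fun h => absurd h hT⟩
  choose pk hpk using hpk
  let S : P → Set L := (wellFounded_lt (α := P)).fix fun ξ ih =>
    (fun η => pk η (⋃ ζ : X ξ, ih ζ (hX ξ ζ.2))) '' X ξ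
  have hS : ∀ ξ, S ξ = (fun η => pk η (⋃ ζ : X ξ, S ζ)) '' X ξ := fun ξ => by
    simp only [S]; rw [WellFounded.fix_eq]
  have h1 : ∀ ξ, #(S ξ) ≤ μ := fun ξ => by
    rw [hS]; exact Cardinal.mk_image_le.trans (hX' ξ)
  have h2 : ∀ ξ, #(⋃ ζ : X ξ, S ζ) ≤ μ := fun ξ =>
    (Cardinal.mk_iUnion_le _).trans ((mul_le_mul' (hX' ξ) (ciSup_le' fun ζ : X ξ => h1 ζ)).trans
      (Cardinal.mul_eq_self hμ).le)
  refine ⟨S, fun ξ => ⟨h1 ξ, fun η hη => ?_, fun ζ hζ => ?_⟩⟩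
  · exact ⟨_, by rw [hS]; exact ⟨η, hη, rfl⟩, (hpk η _ (h2 ξ)).1⟩
  · rw [Set.disjoint_left]
    intro x hx hx'
    rw [hS] at hx
    obtain ⟨η, -, rfl⟩ := hx
    exact (hpk η _ (h2 ξ)).2 (mem_iUnion.2 ⟨⟨ζ, hζ⟩, hx'⟩)

theorem neg {lam : Cardinal.{u}} (hs : lam.IsSingular) (h2 : 2 ^ lam = Order.succ lam)
    (α : Ordinal.{u}) (hα : 2 ^ lam.ord.cof < α.card) :
    ¬ Pol (Order.succ lam) lam ![(Order.succ lam).ord, α] ![lam.ord, lam.ord] := by
  classical
  intro hP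
  have h0 := hs.aleph0_le
  have h0' : ℵ₀ < lam := h0.lt_of_ne fun h => not_isSingular_aleph0 (h ▸ hs)
  have hν : ℵ₀ ≤ lam.ord.cof := Ordinal.aleph0_le_cof_iff.2 (by
    simpa using Ordinal.one_lt_cof_iff.2 (Cardinal.isSuccLimit_ord h0))
  have hν1 : Order.succ lam.ord.cof < lam := hs.isSuccLimit.succ_lt hs.cof_ord_lt
  set P := (Order.succ lam).ord.ToType
  set L := lam.ord.ToType
  have hL : #L = lam := by simp [L]
  have hPi : ∀ ξ : P, #(Iic ξ) ≤ lam := fun ξ =>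
    Order.lt_succ_iff.1 (iic (h0.trans (Order.le_succ _)) ξ)
  obtain ⟨C, hC, hCc⟩ := Order.exists_cof_eq L
  rw [Ordinal.cof_toType] at hCc
  have he : ∀ a : P, ∃ e : P → L, InjOn e (Iic a) := by
    intro a
    obtain ⟨f⟩ : Nonempty (Iic a ↪ L) := by rw [← Cardinal.le_def, hL]; exact hPi a
    refine ⟨fun x => if h : x ≤ a then f ⟨x, h⟩ else f ⟨a, self_mem_Iic⟩, ?_⟩
    intro x hx y hy hxy
    have hx' : x ≤ a := hx
    have hy' : y ≤ a := hy
    simp only [hx', hy', dif_pos] at hxy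
    exact congrArg Subtype.val (f.injective hxy)
  choose φ hφ using he
  obtain ⟨β⟩ : Nonempty (P ≃ Set L) := by
    rw [← Cardinal.eq]; simp [P, L, h2]
  let B : P → Set L := fun η => if #(β η) = lam then β η else Set.univ
  have hB : ∀ η, #(B η) = lam := fun η => by
    simp only [B]; split_ifs with h
    · exact h
    · simpa using hL
  let X : L → P → Set P := fun m ξ => {ζ | ζ < ξ ∧ φ ξ ζ ≤ m}
  let μ : L → Cardinal.{u} := fun m => max ℵ₀ #(Iic m)
  have hμ : ∀ m, μ m < lam := fun m => max_lt h0' (iic h0 m)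
  have hX : ∀ m ξ, #(X m ξ) ≤ μ m := fun m ξ =>
    (Cardinal.mk_le_of_injective (f := fun ζ : X m ξ => (⟨φ ξ ζ, ζ.2.2⟩ : Iic m))
      fun a b h => Subtype.ext (hφ ξ a.2.1.le b.2.1.le (congrArg Subtype.val h))).trans
      (le_max_right _ _)
  choose S hS1 hS2 hS3 using fun m => build (le_max_left ℵ₀ #(Iic m)) (X m) B
    (fun ξ ζ h => h.1) (hX m) (fun η => by rw [hB]; exact hμ m)
  choose e he1 he2 using fun ζ ξ : P => hC (φ ξ ζ)
  obtain ⟨i, A, D, hA, hD, hc⟩ := hP fun ξ x => if ∃ m ∈ C, x ∈ S m ξ then 1 else 0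
  have hA' := congrArg Ordinal.card hA
  have hD' : #D = lam := by
    have := congrArg Ordinal.card hD
    rw [otp, Ordinal.card_type] at this
    fin_cases i <;> simpa using this
  rw [otp, Ordinal.card_type] at hA'
  fin_cases i
  · have hA2 : #A = Order.succ lam := by simpa using hA'
    obtain ⟨ξ, hξ, hlt⟩ : ∃ ξ ∈ A, β.symm D < ξ := by
      by_contra hh
      push Not at hh
      exact (Order.lt_succ lam).not_ge
        (hA2.ge.trans ((Cardinal.mk_le_mk_of_subset hh).trans (hPi _)))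
    obtain ⟨x, hx1, hx2⟩ := hS2 (e (β.symm D) ξ) ξ (β.symm D) ⟨hlt, he2 _ _⟩
    have hx3 : x ∈ D := by simpa [B, hD'] using hx2
    have := hc ξ hξ x hx3
    rw [if_pos ⟨_, he1 _ _, hx1⟩] at this
    simp at this
  · have hA2 : #A = α.card := by simpa using hA'
    obtain ⟨T, f, d, hT, hf, hd⟩ := H26.ErdosRado.erdos_rado (X := A) (C := C) hν hCc.le
      (hA2 ▸ hα) fun y z => if y.1 < z.1 then ⟨e y z, he1 _ _⟩ else ⟨e z y, he1 _ _⟩
    have key : D ⊆ ⋃ j, ⋃ m : Iic d.1, S m (f j) := by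
      intro x hx
      have : ∀ j, ∃ m : C, x ∈ S m (f j) := by
        intro j
        have := hc _ (f j).2 x hx
        by_contra hh
        push Not at hh
        rw [if_neg (fun ⟨m, h1, h2⟩ => hh ⟨m, h1⟩ h2)] at this
        simp at this
      choose g hg using this
      obtain ⟨j, hj, k, hk, hjk, hgg⟩ : ∃ j ∈ T, ∃ k ∈ T, j < k ∧ g j = g k := by
        by_contra hh
        push Not at hh
        refine (Order.lt_succ lam.ord.cof).not_ge (hT.trans (le_trans ?_ hCc.le))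
        refine Cardinal.mk_le_of_injective (f := fun j : T => g j) fun a b h => ?_
        rcases lt_trichotomy a.1 b.1 with h1 | h1 | h1
        · exact absurd h (hh _ a.2 _ b.2 h1)
        · exact Subtype.ext h1
        · exact absurd h.symm (hh _ b.2 _ a.2 h1)
      have h3 := hd j hj k hjk
      have h4 : (g j).1 ≤ d.1 := by
        by_contra hh
        push Not at hh
        by_cases h5 : (f j).1 < (f k).1
        · rw [if_pos h5] at h3
          have h6 : e (f j) (f k) = d.1 := congrArg Subtype.val h3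
          exact Set.disjoint_left.1 (hS3 (g j) (f k) (f j) ⟨h5, (he2 _ _).trans (h6 ▸ hh.le)⟩)
            (hgg ▸ hg k) (hg j)
        · rw [if_neg h5] at h3
          have h6 : e (f k) (f j) = d.1 := congrArg Subtype.val h3
          have h7 : (f k).1 < (f j).1 :=
            (not_lt.1 h5).lt_of_ne fun h => hjk.ne' (hf (Subtype.ext h))
          exact Set.disjoint_left.1 (hS3 (g j) (f j) (f k) ⟨h7, (he2 _ _).trans (h6 ▸ hh.le)⟩)
            (hg j) (hgg ▸ hg k)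
      exact mem_iUnion.2 ⟨j, mem_iUnion.2 ⟨⟨g j, h4⟩, hg j⟩⟩
    have h8 : ∀ j, #(⋃ m : Iic d.1, S m (f j)) ≤ μ d * μ d := fun j =>
      (Cardinal.mk_iUnion_le _).trans (mul_le_mul' (le_max_right _ _) (ciSup_le' fun m =>
        (hS1 _ _).trans (max_le_max le_rfl (Cardinal.mk_le_mk_of_subset (Iic_subset_Iic.2 m.2)))))
    have h9 := (Cardinal.mk_le_mk_of_subset key).trans ((Cardinal.mk_iUnion_le _).trans
      (mul_le_mul' le_rfl (ciSup_le' h8)))
    rw [hD', Cardinal.mk_ord_toType] at h9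
    exact h9.not_gt (Cardinal.mul_lt_of_lt h0 hν1 (Cardinal.mul_lt_of_lt h0 (hμ _) (hμ _)))

theorem result :
    (∀ lam : Cardinal.{u}, lam.IsSingular → (∀ θ < lam, ∃ κ, Meas κ ∧ θ < κ ∧ κ < lam) →
      2 ^ lam = Order.succ lam → ∃ α < (Order.succ lam).ord,
        ¬ Pol (Order.succ lam) lam ![(Order.succ lam).ord, α] ![lam.ord, lam.ord]) ∧
    (∀ lam : Cardinal.{u}, lam.IsSingular → 2 ^ lam = Order.succ lam →
      ∀ α : Ordinal.{u}, 2 ^ lam.ord.cof < α.card →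
        ¬ Pol (Order.succ lam) lam ![(Order.succ lam).ord, α] ![lam.ord, lam.ord]) := by
  refine ⟨fun lam hs hm h2 => ⟨lam.ord, Cardinal.ord_lt_ord.2 (Order.lt_succ _), ?_⟩,
    fun lam hs h2 α hα => neg hs h2 α hα⟩
  obtain ⟨κ, h1, h3, h4⟩ := hm _ hs.cof_ord_lt
  exact neg hs h2 _ (by simpa using (meas_sl h1 h3).trans h4)

end Pool.Agent.Results.MP_cf3da8_lc.Neg
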